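import Pool.Agent.H30.AW.Targets
import Pool.Agent.H20.AV.BZE
import Pool.Agent.H64.AV.CUR

/-!
# MP_70ba79_ag: module BZ2 of the board `aw_modules`: the case of dimension zero
-/

set_option autoImplicit false

namespace Pool.Agent.H91.AW

open MvPolynomial SC Pool.Agent.H27.LV Pool.Agent.H30.AV Pool.Agent.H30.AW

/-- two coordinates of a zero of a homogeneous prime ideal of dimension at most one are
proportional over the constants -/
lemma bz_rel {k K τ : Type} [Field k] [IsAlgClosed k] [Field K] [Algebra k K]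
    (P : Ideal (MvPolynomial τ k)) (hPh : IsHom P)
    (hPt : Algebra.trdeg k (MvPolynomial τ k ⧸ P) ≤ (1 : Cardinal))
    (W : τ → K) (hW : ∀ g ∈ P, aeval W g = 0) (p p0 : τ) (h0 : W p0 ≠ 0) :
    ∃ c : k, W p = algebraMap k K c * W p0 := by
  obtain ⟨g, hg⟩ : ∃ g : Fin 2 → MvPolynomial τ k, g = ![X p, X p0] := ⟨_, rfl⟩
  have hg1 : ∀ i, (g i).IsHomogeneous 1 := by
    intro i
    rw [hg]
    fin_cases i
    · exact isHomogeneous_X k _
    · exact isHomogeneous_X k _
  have hdep : ¬ AlgebraicIndependent k fun i => (Ideal.Quotient.mkₐ k P) (g i) := by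
    intro hi
    have h1 := hi.cardinalMk_le_trdeg.trans hPt
    rw [Cardinal.mk_fin] at h1
    have h2 : (2 : ℕ) ≤ 1 := by exact_mod_cast h1
    omega
  rw [algebraicIndependent_iff] at hdep
  push Not at hdep
  obtain ⟨f, hf, hf0⟩ := hdep
  have hfP : aeval g f ∈ P := by
    have h1 : (Ideal.Quotient.mkₐ k P) (aeval g f) = 0 := by
      rw [MvPolynomial.comp_aeval_apply]
      exact hf
    rw [Ideal.Quotient.mkₐ_eq_mk, Ideal.Quotient.eq_zero_iff_mem] at h1
    exact h1
  have hcomp : ∃ d, homogeneousComponent d f ≠ 0 := by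
    by_contra hcon
    push Not at hcon
    apply hf0
    rw [← sum_homogeneousComponent f]
    exact Finset.sum_eq_zero fun d _ => hcon d
  obtain ⟨d, hd⟩ := hcomp
  have hBP : aeval g (homogeneousComponent d f) ∈ P := by
    rw [← Pool.Agent.H20.AV.hc_aeval g hg1]
    exact hPh _ hfP d
  have hval := hW _ hBP
  have hval' : aeval ![W p / W p0 * W p0, W p0] (homogeneousComponent d f) = 0 := by
    rw [← hval, MvPolynomial.comp_aeval_apply]
    have : (fun i => aeval W (g i)) = ![W p / W p0 * W p0, W p0] := by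
      funext i
      rw [hg]
      fin_cases i
      · simp [div_mul_cancel₀ _ h0]
      · simp
    rw [this]
  have halg := Pool.Agent.H20.AV.algebraic_of_form _ d (homogeneousComponent_isHomogeneous d f) hd
    (W p / W p0) (W p0) h0 hval'
  have hint : IsIntegral k (W p / W p0) := halg.isIntegral
  have h1 : (minpoly k (W p / W p0)).degree = 1 := IsAlgClosed.degree_eq_one_of_irreducible k
    (minpoly.irreducible hint)
  obtain ⟨c, hc⟩ := minpoly.mem_range_of_degree_eq_one k (W p / W p0) h1
  refine ⟨c, ?_⟩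
  rw [hc, div_mul_cancel₀ _ h0]

/-- the hyperplane `a` does not contain the tangent line -/
lemma bz_ne {k K : Type} [Field k] [Field K] [Algebra k K] {n : ℕ} (y : Fin n → K)
    (D : Derivation k K K) (c : Zw n → k) (j : Fin n) (hs : D (y j) ≠ 0)
    (hc : ∀ p, lift2 y D p = algebraMap k K (c p) * D (y j)) (a : Fin (n + 1) → k)
    (ha : ell a (xx y) ≠ 0) : ∃ b : Fin (n + 1) → k, bil b c a ≠ 0 := by
  classical
  by_contra hcon
  push Not at hcon
  have h1 : ∀ s, ∑ t, c (s, t) * a t = 0 := by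
    intro s
    have h := hcon (Pi.single s 1)
    unfold bil at h
    rw [Finset.sum_eq_single s] at h
    · rw [← h]
      refine Finset.sum_congr rfl fun t _ => ?_
      rw [Pi.single_eq_same, one_mul]
    · intro s' _ hne
      refine Finset.sum_eq_zero fun t _ => ?_
      rw [Pi.single_eq_of_ne hne, zero_mul, zero_mul]
    · intro hn
      exact absurd (Finset.mem_univ s) hn
  have hDl : D (ell a (xx y)) = ∑ t, algebraMap k K (a t) * D (xx y t) := by
    unfold ell
    rw [map_sum]
    refine Finset.sum_congr rfl fun t _ => ?_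
    rw [Derivation.leibniz, Derivation.map_algebraMap, smul_zero, add_zero, smul_eq_mul]
  have h2 : ∀ s, xx y s * D (ell a (xx y)) - ell a (xx y) * D (xx y s) = 0 := by
    intro s
    have h3 : ∑ t, lift2 y D (s, t) * algebraMap k K (a t) = 0 := by
      have h4 : ∑ t, lift2 y D (s, t) * algebraMap k K (a t) =
          algebraMap k K (∑ t, c (s, t) * a t) * D (y j) := by
        rw [map_sum, Finset.sum_mul]
        refine Finset.sum_congr rfl fun t _ => ?_
        rw [hc, map_mul]
        ring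
      rw [h4, h1, map_zero, zero_mul]
    rw [← h3, hDl, ell, Finset.mul_sum, Finset.sum_mul, ← Finset.sum_sub_distrib]
    refine Finset.sum_congr rfl fun t _ => ?_
    simp only [lift2, wed]
    ring
  have h5 : D (ell a (xx y)) = 0 := by
    have := h2 0
    simpa [xx] using this
  have h6 := h2 j.succ
  rw [h5, mul_zero, zero_sub, neg_eq_zero] at h6
  have h7 : xx y j.succ = y j := by simp [xx]
  rw [h7] at h6
  rcases mul_eq_zero.1 h6 with h8 | h8
  · exact ha h8
  · exact hs h8

/-- module BZ2 -/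
theorem pf_BZ2 (hLO2 : T_LO2) (hGPV : T_GPV) (hPFM : T_PFM) (hDFI : T_DFI) (hPFI : T_PFI)
    (hKER : T_KER) : T_BZ2 := by
  intro k _ _ _ m n r q Q hm hr hQ hq P hPp hPh hPt
  obtain ⟨Δ, hΔ, hG⟩ := hGPV k n r q Q hQ
  refine ⟨Δ, r * m, hΔ, Nat.one_le_iff_ne_zero.2 (Nat.mul_ne_zero (by omega) (by omega)), ?_⟩
  intro a ha μ hμ K _ _ _ htr S y x D hD hQy hS hyc hx hxm hP
  classical
  obtain ⟨j, hj⟩ := hyc
  have hs : D (y j) ≠ 0 := fun h => hj (hKER k K htr D hD _ h)
  have hl0 : lift2 y D (0, j.succ) = D (y j) := by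
    simp [lift2, wed, xx]
  have hrel : ∀ p, ∃ c : k, lift2 y D p = algebraMap k K c * D (y j) := by
    intro p
    have h := bz_rel P hPh hPt (lift2 y D) hP p (0, j.succ) (by rw [hl0]; exact hs)
    rwa [hl0] at h
  choose c hc using hrel
  have hell : ∀ i, ell (a i) (xx y) ≠ 0 := by
    intro i
    rw [← hxm i]
    exact pow_ne_zero _ (hx i)
  have hb : ∀ i, ∃ b : Fin (n + 1) → k, bil b c (a i) ≠ 0 := fun i =>
    bz_ne y D c j hs hc (a i) (hell i)
  choose b hb using hb
  have hbil : ∀ i, bil (evk K (b i)) (lift2 y D) (evk K (a i)) =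
      algebraMap k K (bil (b i) c (a i)) * D (y j) := by
    intro i
    unfold bil evk
    rw [map_sum, Finset.sum_mul]
    refine Finset.sum_congr rfl fun s _ => ?_
    rw [map_sum, Finset.sum_mul]
    refine Finset.sum_congr rfl fun t _ => ?_
    rw [hc, map_mul, map_mul]
    ring
  have hac : ∀ i, algebraMap k K (bil (b i) c (a i)) ≠ 0 := fun i h =>
    hb i ((map_eq_zero_iff _ (algebraMap k K).injective).1 h)
  have hL := fun (i : Fin q) (v : DV k K) => hLO2 k K htr n m (μ i) (a i) (b i) S y (x i) D hD hS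
    (hx i) hm (hμ i) (hxm i) v
  set E : DV k K → ℤ := fun v => (poleOrder v y : ℤ) with hE
  set kp : DV k K → ℤ := fun v => kap D S y v with hkp
  set ℓ : Fin q → K := fun i => ell (a i) (xx y) with hℓ
  set lam : Fin q → DV k K → ℤ := fun i v => v.ord (ℓ i) + E v with hlam
  have hlam0 : ∀ i v, 0 ≤ lam i v := fun i v => (hL i v).1
  have hq0 : 0 < q := by
    rcases Nat.eq_zero_or_pos q with h | h
    · rw [h, mul_zero] at hq
      exact absurd hq (Nat.not_lt_zero _)
    · exact h
  have hkap : ∀ v : DV k K, kp v ≤ v.ord (D (y j)) := by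
    intro v
    have h := (hL ⟨0, hq0⟩ v).2.2.1 (0, j.succ)
    rw [hl0] at h
    exact h.resolve_left hs
  have hone : ∀ i v, m * kp v + (m - 1) * lam i v ≤ m * v.ord (D (y j)) := by
    intro i v
    rcases (hL i v).2.2.2 with h | h
    · rw [hbil] at h
      exact absurd h (mul_ne_zero (hac i) hs)
    · rw [hbil, v.ord_mul' (hac i) hs, v.ord_base, zero_add] at h
      exact h
  -- the local inequality
  have hloc : ∀ v : DV k K, r * m * kp v + (m - 1) * ∑ i, lam i v ≤
      r * m * v.ord (D (y j)) := by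
    intro v
    let I : Finset (Fin q) := Finset.univ.filter fun i => 0 < lam i v
    have hIr : I.card ≤ r := hG a ha K htr y hQy hell v I fun i hi => (Finset.mem_filter.1 hi).2
    have h1 : ∑ i, lam i v = ∑ i ∈ I, lam i v := by
      rw [Finset.sum_filter]
      refine Finset.sum_congr rfl fun i _ => ?_
      split_ifs with h2
      · rfl
      · exact le_antisymm (not_lt.1 h2) (hlam0 i v)
    have h3 : ∑ i ∈ I, ((m : ℤ) - 1) * lam i v ≤
        ∑ i ∈ I, ((m : ℤ) * v.ord (D (y j)) - m * kp v) :=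
      Finset.sum_le_sum fun i _ => by
        have := hone i v
        linarith
    rw [Finset.sum_const, nsmul_eq_mul] at h3
    have hm0 : (0 : ℤ) ≤ m := Int.natCast_nonneg m
    have h4 : (I.card : ℤ) * ((m : ℤ) * v.ord (D (y j)) - m * kp v) ≤
        r * ((m : ℤ) * v.ord (D (y j)) - m * kp v) := by
      apply mul_le_mul_of_nonneg_right
      · exact_mod_cast hIr
      · rw [← mul_sub]
        exact mul_nonneg hm0 (sub_nonneg.2 (hkap v))
    rw [h1, Finset.mul_sum]
    linarith
  -- summation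
  have hf1 := (hPFM k K htr (D (y j))).1
  have hf2 := hDFI k K htr D hD
  have hf3 := hPFI k K htr (Fin n) y
  have hf4 : (⋃ i, {v : DV k K | v.ord (ℓ i) ≠ 0}).Finite :=
    Set.finite_iUnion fun i => (hPFM k K htr (ℓ i)).1
  obtain ⟨T, hST, hT⟩ : ∃ T : Finset (DV k K), S ⊆ T ∧ ∀ v, v ∉ T → v.ord (D (y j)) = 0 ∧
      ordD v D = 0 ∧ poleOrder v y = 0 ∧ ∀ i, v.ord (ℓ i) = 0 := by
    refine ⟨S ∪ (hf1.toFinset ∪ hf2.toFinset ∪ hf3.toFinset ∪ hf4.toFinset),
      Finset.subset_union_left, fun v hv => ?_⟩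
    simp only [Finset.mem_union, Set.Finite.mem_toFinset, Set.mem_ofPred_eq, not_or, not_not,
      Set.mem_iUnion, not_exists] at hv
    exact ⟨hv.2.1.1.1, hv.2.1.1.2, hv.2.1.2, hv.2.2⟩
  have s1 : ∑ v ∈ T, v.ord (D (y j)) = 0 := by
    rw [← (hPFM k K htr (D (y j))).2, finsum_eq_sum_of_support_subset]
    intro v hv
    by_contra hcon
    exact hv (hT v hcon).1
  have s2 : ∑ v ∈ T, ordD v D = -canDeg D := by
    unfold canDeg
    rw [neg_neg, finsum_eq_sum_of_support_subset]
    intro v hv
    by_contra hcon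
    exact hv (hT v hcon).2.1
  have s3 : ∑ v ∈ T, E v = deg k y := by
    rw [cast_deg htr, finsum_eq_sum_of_support_subset]
    intro v hv
    by_contra hcon
    exact hv (by
      simp only
      exact_mod_cast (hT v hcon).2.2.1)
  have s4 : ∀ i, ∑ v ∈ T, v.ord (ℓ i) = 0 := by
    intro i
    rw [← (hPFM k K htr (ℓ i)).2, finsum_eq_sum_of_support_subset]
    intro v hv
    by_contra hcon
    exact hv ((hT v hcon).2.2.2 i)
  have s5 : ∑ v ∈ T, ∑ i, lam i v = q * deg k y := by
    rw [Finset.sum_comm]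
    have : ∀ i, ∑ v ∈ T, lam i v = deg k y := fun i => by
      simp only [hlam]
      rw [Finset.sum_add_distrib, s4, s3, zero_add]
    rw [Finset.sum_congr rfl fun i _ => this i, Finset.sum_const, Finset.card_univ,
      Fintype.card_fin, nsmul_eq_mul]
  have s6 : ∑ v ∈ T, kp v = -canDeg D - S.card - 2 * deg k y := by
    simp only [hkp, kap]
    rw [Finset.sum_sub_distrib, s2, ← Finset.sum_filter]
    have h1 : T.filter (fun v => v ∈ S) = S := by
      ext v
      simp only [Finset.mem_filter]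
      exact ⟨fun h => h.2, fun h => ⟨hST h, h⟩⟩
    rw [h1, Finset.sum_add_distrib, ← Finset.mul_sum]
    have h2 : ∑ v ∈ S, (poleOrder v y : ℤ) = deg k y := by
      rw [← s3]
      apply Finset.sum_subset hST
      intro v _ hv
      simp only [Nat.cast_eq_zero]
      unfold poleOrder
      rw [← Nat.le_zero]
      refine Finset.sup_le fun i _ => ?_
      have := hS v hv i
      omega
    rw [h2]
    simp
    ring
  have hfin := Finset.sum_le_sum fun (v : DV k K) (_ : v ∈ T) => hloc v
  rw [Finset.sum_add_distrib, ← Finset.mul_sum, ← Finset.mul_sum, ← Finset.mul_sum, s1, s5, s6]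
    at hfin
  have hq' : 2 * (r : ℤ) * m + 1 ≤ (m - 1) * q := by
    have h1 : 2 * r * m + 1 ≤ (m - 1) * q := hq
    have h2 : ((m - 1 : ℕ) : ℤ) = m - 1 := by
      push_cast [Nat.le_trans one_le_two hm]
      ring
    have h3 : ((2 * r * m + 1 : ℕ) : ℤ) ≤ ((m - 1 : ℕ) : ℤ) * q := by exact_mod_cast h1
    rw [h2] at h3
    push_cast at h3
    exact h3
  have hdeg : (0 : ℤ) ≤ deg k y := Int.natCast_nonneg _
  have h7 := mul_le_mul_of_nonneg_right hq' hdeg
  push_cast
  linarith

end Pool.Agent.H91.AW
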