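import Pool.Agent.H30.AW.Targets
import Pool.Agent.H2.LV.CRD
import Pool.Agent.H95.LV.DK

/-!
Row NU2 of the board aw_modules: the numerical inequality.
-/

set_option autoImplicit false

namespace Pool.Agent.H91.AW.NU2x

open Pool.Agent.H27.LV Pool.Agent.H30.AV Pool.Agent.H30.AW Filter Topology Nat

lemma cardM (n d : ℕ) : Fintype.card (Mon (n + 1) d) = (n + d).choose n :=
  Pool.Agent.H2.LV.crd Pool.Agent.H95.LV.spl n d

lemma sum_lin (w : ℕ) : 2 * ∑ j ∈ Finset.range w, (j + 1) = w * (w + 1) := by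
  induction w with
  | zero => simp
  | succ w ih => rw [Finset.sum_range_succ, mul_add, ih]; ring

lemma cnt_le (b M w : ℕ) : 2 * cnt (b + 1) M w ≤ (b + M).choose b * (w * (w + 1)) := by
  have h1 : cnt (b + 1) M w ≤ ∑ j ∈ Finset.range w, (j + 1) * (b + M).choose b := by
    unfold cnt
    apply Finset.sum_le_sum
    intro j _
    split_ifs with h
    · rw [cardM]
      apply Nat.mul_le_mul_left
      apply Nat.choose_le_choose
      omega
    · exact Nat.zero_le _
  rw [← Finset.sum_mul] at h1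
  calc 2 * cnt (b + 1) M w ≤ 2 * ((∑ j ∈ Finset.range w, (j + 1)) * (b + M).choose b) :=
        Nat.mul_le_mul_left 2 h1
    _ = (b + M).choose b * (2 * ∑ j ∈ Finset.range w, (j + 1)) := by ring
    _ = _ := by rw [sum_lin]

lemma cnt_zero (M w : ℕ) (h : w ≤ M) : cnt 0 M w = 0 := by
  unfold cnt
  apply Finset.sum_eq_zero
  intro j hj
  rw [Finset.mem_range] at hj
  rw [if_pos (by omega)]
  obtain ⟨x, hx⟩ : ∃ x, M - j = x + 1 := ⟨M - j - 1, by omega⟩
  rw [hx, Pool.Agent.H2.LV.card_empty, mul_zero]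

lemma eventually_ineq (m b q A c d : ℕ) (hA : 1 ≤ A)
    (hmain : 2 * (m : ℝ) ^ 2 * q * (((b : ℝ) + 1) * (b + 2)) < (A : ℝ) ^ 2) :
    ∀ᶠ t : ℕ in atTop, ((b : ℝ) + 1) * (b + 2) * (q * ((2 * m * t) * (2 * m * t + 1))) *
      ((A : ℝ) * t + c + b) ^ b < 2 * ((A : ℝ) * t - d) ^ (b + 2) := by
  have hA0 : (0 : ℝ) < A := by exact_mod_cast hA
  set G : ℝ → ℝ := fun ε => 2 * ((A : ℝ) - d * ε) ^ (b + 2) -
    ((b : ℝ) + 1) * (b + 2) * (q * ((2 * m) * (2 * m + ε))) *
      ((A : ℝ) + (c + b) * ε) ^ b with hG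
  have hGc : Continuous G := by
    rw [hG]
    fun_prop
  have hG0 : 0 < G 0 := by
    simp only [hG, mul_zero, sub_zero, add_zero]
    have h1 : 2 * (A : ℝ) ^ (b + 2) -
        ((b : ℝ) + 1) * (b + 2) * (q * ((2 * m) * (2 * m))) * (A : ℝ) ^ b =
        2 * (A : ℝ) ^ b * ((A : ℝ) ^ 2 -
          2 * (m : ℝ) ^ 2 * q * (((b : ℝ) + 1) * (b + 2))) := by ring
    rw [h1]
    have h2 : 0 < (A : ℝ) ^ b := pow_pos hA0 b
    have h3 : 0 < (A : ℝ) ^ 2 - 2 * (m : ℝ) ^ 2 * q * (((b : ℝ) + 1) * (b + 2)) := by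
      linarith
    positivity
  have hlim : Tendsto (fun t : ℕ => (1 : ℝ) / (t : ℝ)) atTop (𝓝 0) :=
    tendsto_const_div_atTop_nhds_zero_nat 1
  have hlim2 : Tendsto (fun t : ℕ => G ((1 : ℝ) / (t : ℝ))) atTop (𝓝 (G 0)) :=
    (hGc.tendsto 0).comp hlim
  have hev := hlim2.eventually (lt_mem_nhds hG0)
  filter_upwards [hev, eventually_ge_atTop 1] with t ht ht1
  have htp : (0 : ℝ) < t := by exact_mod_cast ht1
  have hmul : 0 < (t : ℝ) ^ (b + 2) * G ((1 : ℝ) / (t : ℝ)) := mul_pos (pow_pos htp _) ht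
  have hexp : (t : ℝ) ^ (b + 2) * G ((1 : ℝ) / (t : ℝ)) =
      2 * ((A : ℝ) * t - d) ^ (b + 2) -
      ((b : ℝ) + 1) * (b + 2) * (q * ((2 * m * t) * (2 * m * t + 1))) *
      ((A : ℝ) * t + c + b) ^ b := by
    simp only [hG]
    have e1 : ((A : ℝ) * t - d) = t * ((A : ℝ) - d * (1 / t)) := by
      field_simp
    have e2 : ((A : ℝ) * t + c + b) = t * ((A : ℝ) + (c + b) * (1 / t)) := by
      field_simp
      ring
    have e3 : (2 * (m : ℝ) * t) * (2 * m * t + 1) =
        t ^ 2 * ((2 * m) * (2 * m + 1 / t)) := by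
      field_simp
    rw [e1, e2, e3, mul_pow, mul_pow]
    ring
  rw [hexp] at hmul
  linarith

end Pool.Agent.H91.AW.NU2x

namespace Pool.Agent.H91.AW

open Pool.Agent.H27.LV Pool.Agent.H30.AV Pool.Agent.H30.AW NU2x Filter Topology

theorem pf_NU2 : T_NU2 := by
  intro m r β q c d C₀ hm hr hβ hq
  obtain ⟨p, rfl⟩ : ∃ p, m = p + 1 := ⟨m - 1, by omega⟩
  obtain ⟨r', rfl⟩ : ∃ r', r = r' + 1 := ⟨r - 1, by omega⟩
  have hp : 1 ≤ p := by omega
  rw [Nat.add_sub_cancel] at hq ⊢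
  have e1 : 2 * (r' + 1) - 1 = 2 * r' + 1 := by omega
  have e2 : 2 * (r' + 1) - 2 = 2 * r' := by omega
  rw [e1, e2] at hq
  -- `A = p q - 1`
  have hpq : 1 ≤ p * q := by
    rcases Nat.eq_zero_or_pos (p * q) with h | h
    · exfalso
      have h1 : p ^ 2 * q = p * (p * q) := by ring
      rw [h1, h, mul_zero] at hq
      have h2 : 0 < 2 * (p + 1) ^ 2 * ((2 * r' + 1) * (2 * r') + 1) := by positivity
      omega
    · exact h
  obtain ⟨A, hA⟩ : ∃ A, p * q = A + 1 := ⟨p * q - 1, by omega⟩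
  have hq' : 2 * (p + 1) ^ 2 * ((2 * r' + 1) * (2 * r') + 1) ≤ p * (A + 1) := by
    calc 2 * (p + 1) ^ 2 * ((2 * r' + 1) * (2 * r') + 1) ≤ p ^ 2 * q := hq
      _ = p * (A + 1) := by rw [← hA]; ring
  have hA1 : 2 * (p + 1) + 1 ≤ A := by
    by_contra hcon
    rw [not_le] at hcon
    have h1 : A + 1 ≤ 2 * p + 3 := by omega
    have h2 : p * (A + 1) ≤ p * (2 * p + 3) := Nat.mul_le_mul_left _ h1
    have h3 : 2 * (p + 1) ^ 2 * 1 ≤ 2 * (p + 1) ^ 2 * ((2 * r' + 1) * (2 * r') + 1) :=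
      Nat.mul_le_mul_left _ (by omega)
    nlinarith
  have hA2 : 2 * (p + 1) * (r' + 1) ≤ A := by
    by_contra hcon
    rw [not_le] at hcon
    have h1 : A + 1 ≤ 2 * (p + 1) * (r' + 1) := hcon
    have h2 : p * (A + 1) ≤ p * (2 * (p + 1) * (r' + 1)) := Nat.mul_le_mul_left _ h1
    have h3 : r' + 1 ≤ (2 * r' + 1) * (2 * r') + 1 := by nlinarith
    have h4 : 2 * (p + 1) ^ 2 * (r' + 1) ≤ 2 * (p + 1) ^ 2 * ((2 * r' + 1) * (2 * r') + 1) :=
      Nat.mul_le_mul_left _ h3
    have h5 : p * (2 * (p + 1) * (r' + 1)) < 2 * (p + 1) ^ 2 * (r' + 1) := by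
      have e : 2 * (p + 1) ^ 2 * (r' + 1) =
          p * (2 * (p + 1) * (r' + 1)) + 2 * (p + 1) * (r' + 1) := by ring
      rw [e]
      have : 0 < 2 * (p + 1) * (r' + 1) := by positivity
      omega
    omega
  have hfin : ∀ t : ℕ, C₀ < t → 2 * (p + 1) * (A * t + C₀) < p * q * (2 * (p + 1) * t) := by
    intro t ht
    rw [hA]
    have e : (A + 1) * (2 * (p + 1) * t) = 2 * (p + 1) * (A * t + t) := by ring
    rw [e]
    exact Nat.mul_lt_mul_of_pos_left (by omega) (by omega)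
  have hw1 : ∀ t : ℕ, d ≤ t → 2 * (p + 1) * t + d ≤ A * t := by
    intro t ht
    calc 2 * (p + 1) * t + d ≤ 2 * (p + 1) * t + t := by omega
      _ = (2 * (p + 1) + 1) * t := by ring
      _ ≤ A * t := Nat.mul_le_mul_right _ hA1
  have hw2 : ∀ t : ℕ, 2 * (p + 1) * t * (r' + 1) ≤ A * t := by
    intro t
    calc 2 * (p + 1) * t * (r' + 1) = 2 * (p + 1) * (r' + 1) * t := by ring
      _ ≤ A * t := Nat.mul_le_mul_right _ hA2
  have hN1 : ∀ t : ℕ, 1 ≤ t → 1 ≤ A * t := by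
    intro t ht
    exact Nat.mul_pos (by omega) ht
  rcases β with _ | b
  · refine ⟨A * (C₀ + d + 1), 2 * (p + 1) * (C₀ + d + 1), hw1 _ (by omega), hw2 _,
      hN1 _ (by omega), ?_, hfin _ (by omega)⟩
    rw [cnt_zero, mul_zero, cardM]
    · exact Nat.choose_pos (by omega)
    · have := hw1 (C₀ + d + 1) (by omega)
      omega
  · have hmain : 2 * ((p + 1 : ℕ) : ℝ) ^ 2 * q * (((b : ℝ) + 1) * (b + 2)) < (A : ℝ) ^ 2 := by
      have hb : b + 1 ≤ 2 * r' := by omega
      have h1 : (b + 1) * (b + 2) ≤ (2 * r' + 1) * (2 * r') := by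
        calc (b + 1) * (b + 2) ≤ (2 * r') * (2 * r' + 1) := Nat.mul_le_mul hb (by omega)
          _ = _ := by ring
      have h2 : 2 * (p + 1) ^ 2 * q * ((b + 1) * (b + 2)) + 2 * (p + 1) ^ 2 * q ≤
          (A + 1) ^ 2 := by
        calc 2 * (p + 1) ^ 2 * q * ((b + 1) * (b + 2)) + 2 * (p + 1) ^ 2 * q
            ≤ 2 * (p + 1) ^ 2 * q * ((2 * r' + 1) * (2 * r')) + 2 * (p + 1) ^ 2 * q := by
              gcongr
          _ = q * (2 * (p + 1) ^ 2 * ((2 * r' + 1) * (2 * r') + 1)) := by ring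
          _ ≤ q * (p * (A + 1)) := Nat.mul_le_mul_left _ hq'
          _ = (p * q) * (A + 1) := by ring
          _ = (A + 1) ^ 2 := by rw [hA]; ring
      have h3 : (A + 1) ^ 2 < A ^ 2 + 2 * (p + 1) ^ 2 * q := by
        have h4 : A + 1 + (A + 1) ≤ 2 * (p + 1) ^ 2 * q := by
          rw [← hA]
          calc p * q + p * q = 2 * p * q := by ring
            _ ≤ 2 * (p + 1) ^ 2 * q := by
                gcongr
                nlinarith
        have e : (A + 1) ^ 2 = A ^ 2 + (2 * A + 1) := by ring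
        rw [e]
        omega
      have h4 : 2 * (p + 1) ^ 2 * q * ((b + 1) * (b + 2)) < A ^ 2 := by omega
      exact_mod_cast h4
    have hev := eventually_ineq (p + 1) b q A c d (by omega) hmain
    obtain ⟨t, ht, htc⟩ := (hev.and (eventually_ge_atTop (C₀ + d + 1))).exists
    refine ⟨A * t, 2 * (p + 1) * t, hw1 _ (by omega), hw2 _, hN1 _ (by omega), ?_,
      hfin _ (by omega)⟩
    have hdN : d ≤ A * t := by
      have := hw1 t (by omega)
      omega
    set N := A * t with hN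
    set w := 2 * (p + 1) * t with hw
    have hNr : (N : ℝ) = (A : ℝ) * t := by
      rw [hN]
      push_cast
      ring
    have hnat : (b + 1) * (b + 2) * (q * (w * (w + 1))) * (N + c + b) ^ b <
        2 * (N - d) ^ (b + 2) := by
      have : (((b + 1) * (b + 2) * (q * (w * (w + 1))) * (N + c + b) ^ b : ℕ) : ℝ) <
          ((2 * (N - d) ^ (b + 2) : ℕ) : ℝ) := by
        push_cast [Nat.cast_sub hdN]
        rw [hNr, hw]
        push_cast
        push_cast at ht
        exact ht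
      exact_mod_cast this
    by_contra hcon
    rw [not_lt] at hcon
    have e0 : b + 1 + 2 = (b + 2) + 1 := by ring
    rw [e0, cardM] at hcon
    have h1 : (N - d + 1) ^ (b + 2) ≤ (b + 2).factorial * (b + 2 + (N - d)).choose (b + 2) := by
      rw [← Nat.descFactorial_eq_factorial_mul_choose]
      have := Nat.pow_sub_le_descFactorial (b + 2 + (N - d)) (b + 2)
      have e : b + 2 + (N - d) + 1 - (b + 2) = N - d + 1 := by omega
      rwa [e] at this
    have h2 : b.factorial * (b + (N + c)).choose b ≤ (N + c + b) ^ b := by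
      rw [← Nat.descFactorial_eq_factorial_mul_choose]
      have := Nat.descFactorial_le_pow (b + (N + c)) b
      have e : b + (N + c) = N + c + b := by ring
      rwa [e] at this ⊢
    have h3 := cnt_le b (N + c) w
    have h4 : (b + 2).factorial = (b + 2) * ((b + 1) * b.factorial) := by
      rw [Nat.factorial_succ, Nat.factorial_succ]
    have h5 : 2 * (N - d) ^ (b + 2) ≤ 2 * (N - d + 1) ^ (b + 2) :=
      Nat.mul_le_mul_left 2 (Nat.pow_le_pow_left (by omega) _)
    have h6 : 2 * (N - d + 1) ^ (b + 2) ≤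
        (b + 1) * (b + 2) * (q * (w * (w + 1))) * (N + c + b) ^ b := by
      calc 2 * (N - d + 1) ^ (b + 2)
          ≤ 2 * ((b + 2).factorial * (b + 2 + (N - d)).choose (b + 2)) :=
            Nat.mul_le_mul_left 2 h1
        _ ≤ 2 * ((b + 2).factorial * (q * cnt (b + 1) (N + c) w)) :=
            Nat.mul_le_mul_left 2 (Nat.mul_le_mul_left _ hcon)
        _ = (b + 1) * (b + 2) * q * b.factorial * (2 * cnt (b + 1) (N + c) w) := by
            rw [h4]; ring
        _ ≤ (b + 1) * (b + 2) * q * b.factorial *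
              ((b + (N + c)).choose b * (w * (w + 1))) := Nat.mul_le_mul_left _ h3
        _ = (b + 1) * (b + 2) * (q * (w * (w + 1))) *
              (b.factorial * (b + (N + c)).choose b) := by ring
        _ ≤ (b + 1) * (b + 2) * (q * (w * (w + 1))) * (N + c + b) ^ b :=
            Nat.mul_le_mul_left _ h2
    omega

end Pool.Agent.H91.AW
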